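import Pool.Agent.H691R2.Pair

set_option autoImplicit false

/-!
Two effectively closed sets which are incomparable for Hyp functions, relative to a given nonempty
set. Adapted from `Pool.Agent.H691R2.Pair`.
-/

namespace Pool.Agent.Y801.HD

open Encodable Nat.Partrec Pool.Agent.Helper750.Eff Pool.Agent.Helper750.Basis
  Pool.Agent.Helper750.KL Pool.Agent.Helper750.Sig Pool.Agent.H691R2.Pair

variable {α : Type} [Rep α]

/-- The basic relation between indices, relative to `X`. -/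
def MX (X : (ℕ → ℕ) → Prop) (j k : ℕ) : Prop :=
  ∀ i : ℕ, ∃ x : ℕ → ℕ, (X (evn x) ∧ Yc j (odd x)) ∧ ∃ z, MinSel i x z ∧ ¬ Yc k z

theorem S11_MX {X : (ℕ → ℕ) → Prop} (hX : S11 X) : S11 (fun p : ℕ × ℕ => MX X p.1 p.2) := by
  refine S11.allN (P := fun p : (ℕ × ℕ) × ℕ => ∃ x : ℕ → ℕ, (X (evn x) ∧ Yc p.1.1 (odd x)) ∧
    ∃ z, MinSel p.2 x z ∧ ¬ Yc p.1.2 z) ?_
  refine S11.exR (P := fun q : ((ℕ × ℕ) × ℕ) × (ℕ → ℕ) => (X (evn q.2) ∧ Yc q.1.1.1 (odd q.2)) ∧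
    ∃ z, MinSel q.1.2 q.2 z ∧ ¬ Yc q.1.1.2 z) ?_
  refine S11.and (S11.and ?_ ?_) ?_
  · exact hX.comp (F := fun q : ((ℕ × ℕ) × ℕ) × (ℕ → ℕ) => evn q.2) (GF.evn GF.snd)
  · exact S11.cl (Cl_Yc (CN.nat (GF.fst.comp (GF.fst.comp GF.fst))) (GF.odd GF.snd))
  · refine S11.exR (P := fun s : (((ℕ × ℕ) × ℕ) × (ℕ → ℕ)) × (ℕ → ℕ) =>
      MinSel s.1.1.2 s.1.2 s.2 ∧ ¬ Yc s.1.1.1.2 s.2) ?_
    have g1 : GF (fun s : (((ℕ × ℕ) × ℕ) × (ℕ → ℕ)) × (ℕ → ℕ) => s.1.1) := GF.fst.comp GF.fst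
    refine S11.and (S11_MinSel (CN.nat (GF.snd.comp g1)) (GF.snd.comp GF.fst) GF.snd) ?_
    exact S11.not_cl (Cl_Yc (CN.nat (GF.snd.comp (GF.fst.comp g1))) GF.snd)

theorem MX_of_empty {X : (ℕ → ℕ) → Prop} (hX : ∃ u, X u) {j k : ℕ} (hj : ∃ x, Yc j x)
    (hk : ¬ ∃ z, Yc k z) : MX X j k := by
  intro i
  obtain ⟨x, hx⟩ := hj
  obtain ⟨u, hu⟩ := hX
  obtain ⟨z, hz⟩ := exists_MinSel i (join u x)
  exact ⟨join u x, ⟨by rw [evn_join]; exact hu, by rw [odd_join]; exact hx⟩, z, hz,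
    fun h => hk ⟨z, h⟩⟩

theorem MX.ne {X : (ℕ → ℕ) → Prop} {j k : ℕ} (h : MX X j k) : ∃ x, Yc j x := by
  obtain ⟨x, hx, _⟩ := h 0
  exact ⟨_, hx.2⟩

/-- Two nonempty effectively closed sets `A`, `B` such that no Hyp function maps `X × A` into `B`
or `X × B` into `A`. -/
theorem exists_pair_rel {X : (ℕ → ℕ) → Prop} (hX : S11 X) (hne : ∃ u, X u) :
    ∃ A B : (ℕ → ℕ) → Prop, Cl A ∧ Cl B ∧ (∃ x, A x) ∧ (∃ x, B x) ∧
    (∀ f : (ℕ → ℕ) → (ℕ → ℕ), S11 (fun p : (ℕ → ℕ) × (ℕ → ℕ) => f p.1 = p.2) →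
      ∃ x, (X (evn x) ∧ A (odd x)) ∧ ¬ B (f x)) ∧
    (∀ f : (ℕ → ℕ) → (ℕ → ℕ), S11 (fun p : (ℕ → ℕ) × (ℕ → ℕ) => f p.1 = p.2) →
      ∃ x, (X (evn x) ∧ B (odd x)) ∧ ¬ A (f x)) := by
  have hu : CN (fun p : (ℕ → ℕ) × ℕ => p.2.unpair) := CN.prim Primrec.unpair (CN.nat GF.snd)
  have hu1 : CN (fun p : (ℕ → ℕ) × ℕ => p.2.unpair.1) := CN.prim Primrec.fst hu
  have hu2 : CN (fun p : (ℕ → ℕ) × ℕ => p.2.unpair.2) := CN.prim Primrec.snd hu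
  obtain ⟨c, hc⟩ := universal (P := fun p : (ℕ → ℕ) × ℕ => MX X p.2.unpair.1 p.2.unpair.2)
    ((S11_MX hX).comp (F := fun p : (ℕ → ℕ) × ℕ => (p.2.unpair.1, p.2.unpair.2))
      (GF.pair (GF.nat hu1) (GF.nat hu2)))
  have hc' : ∀ j k, MX X j k ↔ Ill (TT c (Nat.pair j k)) := by
    intro j k
    have h1 := hc O (Nat.pair j k)
    simp only [Nat.unpair_pair] at h1
    rw [h1]
    refine exists_congr fun p => forall_congr' fun l => ?_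
    unfold TT
    rw [pfx_length]
  -- the two diagonal predicates
  let J : ℕ → ℕ := fun m => Nat.pair m.unpair.1 m
  let K : ℕ → ℕ := fun m => Nat.pair m.unpair.2 m
  have hJ : CN (fun p : (ℕ → ℕ) × ℕ => J p.2) := CN.prim2 Primrec₂.natPair hu1 (CN.nat GF.snd)
  have hK : CN (fun p : (ℕ → ℕ) × ℕ => K p.2) := CN.prim2 Primrec₂.natPair hu2 (CN.nat GF.snd)
  have hJK : CN (fun p : (ℕ → ℕ) × ℕ => Nat.pair (J p.2) (K p.2)) :=
    CN.prim2 Primrec₂.natPair hJ hK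
  have hKJ : CN (fun p : (ℕ → ℕ) × ℕ => Nat.pair (K p.2) (J p.2)) :=
    CN.prim2 Primrec₂.natPair hK hJ
  obtain ⟨i1, hi1⟩ := universal (P := fun p : (ℕ → ℕ) × ℕ =>
    Phi1 c (Nat.pair (J p.2) (K p.2)) (Nat.pair (K p.2) (J p.2))) (S11_Phi1 hJK hKJ)
  obtain ⟨i2, hi2⟩ := universal (P := fun p : (ℕ → ℕ) × ℕ =>
    Phi2 c (Nat.pair (J p.2) (K p.2)) (Nat.pair (K p.2) (J p.2))) (S11_Phi2 hJK hKJ)
  obtain ⟨m, hm⟩ : ∃ m, m = Nat.pair i1 i2 := ⟨_, rfl⟩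
  obtain ⟨j, hj⟩ : ∃ j, j = J m := ⟨_, rfl⟩
  obtain ⟨k, hk⟩ : ∃ k, k = K m := ⟨_, rfl⟩
  have h1 : Phi1 c (Nat.pair j k) (Nat.pair k j) ↔ ∃ p, Yc j p := by
    have h := hi1 O m
    simp only [← hj, ← hk] at h
    rw [h]
    refine exists_congr fun p => forall_congr' fun l => ?_
    rw [hj]
    simp only [J, Nat.unpair_pair]
    rw [hm]
    simp only [Nat.unpair_pair]
  have h2 : Phi2 c (Nat.pair j k) (Nat.pair k j) ↔ ∃ p, Yc k p := by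
    have h := hi2 O m
    simp only [← hj, ← hk] at h
    rw [h]
    refine exists_congr fun p => forall_congr' fun l => ?_
    rw [hk]
    simp only [K, Nat.unpair_pair]
    rw [hm]
    simp only [Nat.unpair_pair]
  have hboth : MX X j k ∧ MX X k j := by
    by_contra hcon
    have hna : ¬ MX X j k := by
      intro h
      apply hcon
      refine ⟨h, ?_⟩
      rw [hc']
      exact (h1.mpr h.ne).ill ((hc' j k).mp h)
    have hnb : ¬ MX X k j := by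
      intro h
      obtain ⟨b, _, hb⟩ := h2.mpr h.ne
      apply hna
      rw [hc']
      exact Ill.of_sub (TT_nil _ _) (hb.ill ((hc' k j).mp h))
    by_cases hp1 : Phi1 c (Nat.pair j k) (Nat.pair k j)
    · by_cases hp2 : Phi2 c (Nat.pair j k) (Nat.pair k j)
      · exact hna ((hc' j k).mpr (Phi_excl hp1 hp2))
      · exact hna (MX_of_empty hne (h1.mp hp1) (fun h => hp2 (h2.mpr h)))
    · have hp2 := (Phi_total c (Nat.pair j k) (Nat.pair k j)).resolve_left hp1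
      exact hnb (MX_of_empty hne (h2.mp hp2) (fun h => hp1 (h1.mpr h)))
  refine ⟨Yc j, Yc k, Cl_Yc (CN.const j) GF.id, Cl_Yc (CN.const k) GF.id, hboth.1.ne,
    hboth.2.ne, ?_, ?_⟩
  · intro f hf
    obtain ⟨i, hi⟩ := exists_index hf
    obtain ⟨x, hx, z, hz, hnz⟩ := hboth.1 i
    refine ⟨x, hx, ?_⟩
    rw [← hi _ _ hz]
    exact hnz
  · intro f hf
    obtain ⟨i, hi⟩ := exists_index hf
    obtain ⟨x, hx, z, hz, hnz⟩ := hboth.2 i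
    refine ⟨x, hx, ?_⟩
    rw [← hi _ _ hz]
    exact hnz

/-- finite products -/
theorem exists_prod (n : ℕ) (X : Fin n → (ℕ → ℕ) → Prop) (hX : ∀ i, S11 (X i))
    (hne : ∀ i, ∃ x, X i x) : ∃ P : (ℕ → ℕ) → Prop, S11 P ∧ (∃ x, P x) ∧
      ∀ i, ∃ π : (ℕ → ℕ) → (ℕ → ℕ), GF π ∧ ∀ x, P x → X i (π x) := by
  induction n with
  | zero =>
    refine ⟨fun _ => True, ?_, ⟨fun _ => 0, trivial⟩, fun i => i.elim0⟩
    exact (S11.dec (F := fun _ : ℕ → ℕ => true) (CN.const true)).of_iff fun _ => by simp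
  | succ n ih =>
    obtain ⟨P, hP, ⟨x, hx⟩, hπ⟩ := ih (fun i => X i.castSucc) (fun i => hX _) (fun i => hne _)
    obtain ⟨y, hy⟩ := hne (Fin.last n)
    refine ⟨fun u => P (evn u) ∧ X (Fin.last n) (odd u), ?_, ⟨join x y, ?_, ?_⟩, ?_⟩
    · exact (hP.comp (GF.evn GF.id)).and ((hX _).comp (GF.odd GF.id))
    · rw [evn_join]; exact hx
    · rw [odd_join]; exact hy
    · intro i
      refine Fin.lastCases ?_ (fun i => ?_) i
      · exact ⟨fun u => odd u, GF.odd GF.id, fun u hu => hu.2⟩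
      · obtain ⟨π, hπ1, hπ2⟩ := hπ i
        exact ⟨fun u => π (evn u), hπ1.comp (GF.evn GF.id), fun u hu => hπ2 _ hu.1⟩

end Pool.Agent.Y801.HD
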